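import Pool.Agent.N535.GC.Neg
import Pool.Agent.N535.GC.HC

/-!
# MP_6a3a89_al, Q1: the Sobolev norm `p_2` of a `G`-continuous norm need not be `G`-continuous

`G = SL(2, ℝ) × SL(2, ℝ)`, `K = SO(2) × SO(2)`, and `V` is the Harish-Chandra module of the
`K`-finite functions on `P¹(ℝ) × P¹(ℝ)`, that is, the trigonometric polynomials
`∑ v (m, n) exp (2 i (m θ + n φ))`. The supremum norm `p` is a `G`-continuous norm on `V` (its
completion is the space of the continuous functions). The Sobolev norm `p_2 = p ∘ (1 + Δ_K)`,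
`(1 + Δ_K) e_(m, n) = (1 + c (m² + n²)) e_(m, n)`, is not `G`-continuous, for any `c > 0` (the
constant `c` is determined by the normalisation of the Cartan-Killing form).

Idea: the supremum norm of the Laplacian does not control the second derivative `f_xx`
(de Leeuw and Mirkil); diffeomorphisms of the first factor `P¹(ℝ)` change `f_xx` and not `f_yy`.

Proof. Let `E` be the completion of `V` with respect to `p_2`, and let `π` be a representation as in
the definition. Then `ℓ (f) = ((1 + Δ_K) f) (1, 1)` is a bounded functional on `E`. Let `X` be the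
diagonal matrix with the entries `1/2, -1/2` in the first factor; it acts by the vector field
`sin x ∂_x`, `x = 2 θ`. We have `ℓ (X^k f) = 2^k c S (f)` for `k ≥ 1`, where
`S (f) = ∑ m² v (m, n) = - f_xx (0, 0)`. By Taylor's formula (`p_2 (X^N e_(m, n))` is at most
`C (|m| + N + 2)! / |m|!`), `ℓ (π (exp (X / 2)) f) = ℓ (f) + c S (f) (e - 1)`. So
`|S (f)| ≤ C p_2 (f)` for all `f` in `V`. But for `f = ∑_{j < n} h_M`, `M = 4^(j + 1)`,
`h_M = (cos y - cos x) ((1 + cos x) / 2)^M ((1 + cos y) / 2)^M`, we have `S (f) = - n`, and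
`p_2 (f)` is bounded, since `|h_M| + |Δ h_M|` is at most a constant times `min (u, 1 / u)` with
`u = M ((1 - cos x) + (1 - cos y)) / 2`.
-/

set_option autoImplicit false

open Complex Pool.Agent.N535.GC

namespace Pool.Agent.Results.MP_6a3a89_al.SobolevNormNotContinuous

lemma casimir (κ : ℝ) (v : V) : D (4 * κ ^ 2) 2 v =
    v - ((κ : ℂ) ^ 2) • (act J 0 (act J 0 v) + act 0 J (act 0 J v)) := by
  have a1 : ∀ (w : V) (p : ℤ × ℤ), act J 0 w p = (-(2 * p.1 * I)) * w p := by
    intro w p
    have := actJ_apply 1 0 w p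
    rw [one_smul, zero_smul] at this
    rw [this]
    push_cast
    ring
  have a2 : ∀ (w : V) (p : ℤ × ℤ), act 0 J w p = (-(2 * p.2 * I)) * w p := by
    intro w p
    have := actJ_apply 0 1 w p
    rw [one_smul, zero_smul] at this
    rw [this]
    push_cast
    ring
  have a3 : ∀ (w : V) (p : ℤ × ℤ), D (4 * κ ^ 2) 2 w p =
      (1 + 4 * (κ : ℂ) ^ 2 * ((p.1 : ℂ) ^ 2 + (p.2 : ℂ) ^ 2)) * w p := by
    intro w p
    induction w using Finsupp.induction_linear with
    | zero => simp
    | add v w hv hw => rw [map_add, Finsupp.add_apply, hv, hw, Finsupp.add_apply]; ring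
    | single q a =>
      rw [D, Finsupp.linearCombination_single, e, Finsupp.smul_single, Finsupp.smul_single,
        show (2 : ℝ) / 2 = 1 by norm_num, Real.rpow_one]
      by_cases hqp : q = p
      · subst hqp
        simp
        ring
      · rw [Finsupp.single_eq_of_ne (by simpa using Ne.symm hqp),
          Finsupp.single_eq_of_ne (by simpa using Ne.symm hqp), mul_zero]
  ext p
  rw [a3, Finsupp.sub_apply, Finsupp.smul_apply, Finsupp.add_apply, a1, a1, a2, a2, smul_eq_mul]
  ring_nf
  simp only [I_sq]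
  ring

/-- `V` is a Harish-Chandra module of `G = SL(2, ℝ) × SL(2, ℝ)`, the supremum norm `p` is a
`G`-continuous norm on `V`, and for every `c > 0` the Sobolev norm `p_2 = p ∘ (1 + Δ_K)` is a norm
which is not `G`-continuous.  (`Δ_K = - (κ J₁)² - (κ J₂)²`, `c = 4 κ²`, if `κ J₁`, `κ J₂` is an
orthonormal basis of `so(2) × so(2)`.) -/
theorem result :
    IsHCModule ∧ GContinuous supNorm ∧
    (∀ c : ℝ, 0 < c → IsNorm (fun v => supNorm (D c 2 v)) ∧
      ¬ GContinuous fun v => supNorm (D c 2 v)) ∧
    (∀ (κ : ℝ) (v : V), D (4 * κ ^ 2) 2 v =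
      v - ((κ : ℂ) ^ 2) • (act J 0 (act J 0 v) + act 0 J (act 0 J v))) :=
  ⟨isHC, gcont_supNorm, fun _ hc => ⟨isNorm_p2 hc 2, not_gcont hc⟩, casimir⟩

end Pool.Agent.Results.MP_6a3a89_al.SobolevNormNotContinuous
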